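import Mathlib

set_option autoImplicit false
set_option linter.constructorNameAsVariable false

open Set Topology

namespace Pool.Agent.Results.MP_e2e219_gt.SquareFails

/-- The specialization order: `x ≤ y` iff `x` lies in the closure of `{y}`. -/
def Le {X : Type} [TopologicalSpace X] (x y : X) : Prop := x ∈ closure {y}

/-- Directed subsets for the specialization order. -/
def IsDirectedSet {X : Type} [TopologicalSpace X] (D : Set X) : Prop :=
  D.Nonempty ∧ ∀ a ∈ D, ∀ b ∈ D, ∃ c ∈ D, Le a c ∧ Le b c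

/-- Strong `d`-spaces: `T₀` spaces such that, for every directed set `D`, every point `x` and every
open set `U`, if `⋂_{d ∈ D} ↑d ∩ ↑x ⊆ U` then `↑d ∩ ↑x ⊆ U` for some `d ∈ D`. -/
def IsStrongDSpace (X : Type) [TopologicalSpace X] : Prop :=
  T0Space X ∧ ∀ (D : Set X) (x : X) (U : Set X), IsDirectedSet D → IsOpen U →
    ((⋂ d ∈ D, {y | Le d y}) ∩ {y | Le x y}) ⊆ U → ∃ d ∈ D, ({y | Le d y} ∩ {y | Le x y}) ⊆ U

/-- The points: `d` and `x` lie below all the `a k`; the `fin n` increase to `inf`. -/
inductive W : Type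
  | d : W
  | x : W
  | a (k : ℕ) : W
  | fin (n : ℕ) : W
  | inf : W

/-- The open sets of `W`. -/
def Opn (U : Set W) : Prop :=
  (W.d ∈ U → ∀ k, W.a k ∈ U) ∧ (W.x ∈ U → ∀ k, W.a k ∈ U) ∧
  (∀ n m, n ≤ m → W.fin n ∈ U → W.fin m ∈ U) ∧ (∀ n, W.fin n ∈ U → W.inf ∈ U) ∧
  (W.inf ∈ U → ∃ n, W.fin n ∈ U)

instance : TopologicalSpace W where
  IsOpen := Opn
  isOpen_univ := by simp [Opn]
  isOpen_inter := by
    rintro U V ⟨h1, h2, h3, h4, h5⟩ ⟨k1, k2, k3, k4, k5⟩
    refine ⟨fun h k => ⟨h1 h.1 k, k1 h.2 k⟩, fun h k => ⟨h2 h.1 k, k2 h.2 k⟩,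
      fun n m hnm h => ⟨h3 n m hnm h.1, k3 n m hnm h.2⟩, fun n h => ⟨h4 n h.1, k4 n h.2⟩, ?_⟩
    rintro ⟨hU, hV⟩
    obtain ⟨n, hn⟩ := h5 hU
    obtain ⟨m, hm⟩ := k5 hV
    exact ⟨max n m, h3 n _ (le_max_left _ _) hn, k3 m _ (le_max_right _ _) hm⟩
  isOpen_sUnion := by
    intro T hT
    refine ⟨?_, ?_, ?_, ?_, ?_⟩
    · rintro ⟨U, hU, h⟩ k
      exact ⟨U, hU, (hT U hU).1 h k⟩
    · rintro ⟨U, hU, h⟩ k
      exact ⟨U, hU, (hT U hU).2.1 h k⟩
    · rintro n m hnm ⟨U, hU, h⟩
      exact ⟨U, hU, (hT U hU).2.2.1 n m hnm h⟩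
    · rintro n ⟨U, hU, h⟩
      exact ⟨U, hU, (hT U hU).2.2.2.1 n h⟩
    · rintro ⟨U, hU, h⟩
      obtain ⟨n, hn⟩ := (hT U hU).2.2.2.2 h
      exact ⟨n, U, hU, hn⟩

theorem isOpen_W {U : Set W} : IsOpen U ↔ Opn U := Iff.rfl

theorem le_iff {X : Type} [TopologicalSpace X] {x y : X} :
    Le x y ↔ ∀ U, IsOpen U → x ∈ U → y ∈ U := by
  rw [Le, ← specializes_iff_mem_closure, specializes_iff_forall_open]

/-- The specialization order of `W`. -/
def R : W → W → Prop
  | .d, .d => True
  | .d, .a _ => True
  | .x, .x => True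
  | .x, .a _ => True
  | .a k, .a l => k = l
  | .fin n, .fin m => n ≤ m
  | .fin _, .inf => True
  | .inf, .inf => True
  | _, _ => False

theorem isOpen_up (u : W) (hu : u ≠ W.inf) : IsOpen {v | R u v} := by
  rw [isOpen_W]
  cases u with
  | d => simp [Opn, R]
  | x => simp [Opn, R]
  | a k => simp [Opn, R]
  | fin n =>
    refine ⟨by simp [R], by simp [R], ?_, ?_, ?_⟩
    · intro a b hab h
      simp only [R, Set.mem_ofPred_eq] at h ⊢
      omega
    · intro a _
      simp [R]
    · intro _
      exact ⟨n, by simp [R]⟩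
  | inf => exact absurd rfl hu

theorem R_refl (u : W) : R u u := by cases u <;> simp [R]

theorem le_W {u v : W} : Le u v ↔ R u v := by
  rw [le_iff]
  constructor
  · intro h
    by_cases hu : u = W.inf
    · subst hu
      cases v with
      | inf => trivial
      | fin n =>
        have := h {v | R (W.fin (n + 1)) v} (isOpen_up _ (by simp)) trivial
        simp [R] at this
      | d =>
        have := h {v | R (W.fin 0) v} (isOpen_up _ (by simp)) trivial
        simp [R] at this
      | x =>
        have := h {v | R (W.fin 0) v} (isOpen_up _ (by simp)) trivial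
        simp [R] at this
      | a k =>
        have := h {v | R (W.fin 0) v} (isOpen_up _ (by simp)) trivial
        simp [R] at this
    · exact h _ (isOpen_up u hu) (R_refl u)
  · intro h U hU hu
    obtain ⟨h1, h2, h3, h4, h5⟩ := isOpen_W.1 hU
    cases u <;> cases v <;> simp only [R] at h
    all_goals first
      | exact hu
      | exact h1 hu _
      | exact h2 hu _
      | exact h4 _ hu
      | exact h3 _ _ h hu
      | (subst h; exact hu)

theorem max_case {D : Set W} {x : W} {U : Set W} {m : W} (hm : m ∈ D) (hmax : ∀ d ∈ D, Le d m)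
    (h : ((⋂ d ∈ D, {y | Le d y}) ∩ {y | Le x y}) ⊆ U) :
    ∃ d ∈ D, ({y | Le d y} ∩ {y | Le x y}) ⊆ U := by
  refine ⟨m, hm, fun y hy => h ⟨?_, hy.2⟩⟩
  rw [mem_iInter₂]
  intro d hd
  have h1 := hmax d hd
  have h2 : Le m y := hy.1
  show Le d y
  rw [le_iff] at h1 h2 ⊢
  exact fun V hV hdV => h2 V hV (h1 V hV hdV)

theorem isStrongDSpace_W : IsStrongDSpace W := by
  constructor
  · constructor
    intro u v huv
    have h1 : R u v := le_W.1 (le_iff.2 fun U hU h => (inseparable_iff_forall_isOpen.1 huv U hU).1 h)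
    have h2 : R v u := le_W.1 (le_iff.2 fun U hU h => (inseparable_iff_forall_isOpen.1 huv U hU).2 h)
    cases u <;> cases v <;> simp only [R] at h1 h2 <;> first | rfl | (subst h1; rfl) | (congr 1; omega)
  · intro D x U hD hU h
    obtain ⟨hne, hdir⟩ := hD
    by_cases h_inf : W.inf ∈ D
    · apply max_case h_inf _ h
      intro d hd
      obtain ⟨c, _, h1, h2⟩ := hdir _ h_inf d hd
      rw [le_W] at h1 h2 ⊢
      cases c <;> simp only [R] at h1
      exact h2
    by_cases h_a : ∃ k, W.a k ∈ D
    · obtain ⟨k, hk⟩ := h_a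
      apply max_case hk _ h
      intro d hd
      obtain ⟨c, _, h1, h2⟩ := hdir _ hk d hd
      rw [le_W] at h1 h2 ⊢
      cases c <;> simp only [R] at h1
      subst h1
      exact h2
    push Not at h_a
    by_cases h_d : W.d ∈ D
    · apply max_case h_d _ h
      intro e he
      obtain ⟨c, hc, h1, h2⟩ := hdir _ h_d e he
      rw [le_W] at h1 h2 ⊢
      cases c with
      | d => exact h2
      | a k => exact absurd hc (h_a k)
      | x => simp [R] at h1
      | fin n => simp [R] at h1
      | inf => simp [R] at h1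
    by_cases h_x : W.x ∈ D
    · apply max_case h_x _ h
      intro e he
      obtain ⟨c, hc, h1, h2⟩ := hdir _ h_x e he
      rw [le_W] at h1 h2 ⊢
      cases c with
      | x => exact h2
      | a k => exact absurd hc (h_a k)
      | d => simp [R] at h1
      | fin n => simp [R] at h1
      | inf => simp [R] at h1
    -- now all members of `D` are of the form `fin n`
    have hfin : ∀ e ∈ D, ∃ n, e = W.fin n := by
      intro e he
      cases e with
      | d => exact absurd he h_d
      | x => exact absurd he h_x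
      | a k => exact absurd he (h_a k)
      | fin n => exact ⟨n, rfl⟩
      | inf => exact absurd he h_inf
    by_cases hb : ∃ B, ∀ n, W.fin n ∈ D → n ≤ B
    · obtain ⟨B, hB⟩ := hb
      obtain ⟨e0, he0⟩ := hne
      obtain ⟨n0, rfl⟩ := hfin e0 he0
      have hmaxex : ∃ m, W.fin m ∈ D ∧ ∀ n, W.fin n ∈ D → n ≤ m := by
        classical
        refine ⟨Nat.findGreatest (fun n => W.fin n ∈ D) B, ?_, ?_⟩
        · exact Nat.findGreatest_spec (P := fun n => W.fin n ∈ D) (hB n0 he0) he0
        · intro n hn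
          exact Nat.le_findGreatest (hB n hn) hn
      obtain ⟨m, hm, hmax⟩ := hmaxex
      apply max_case hm _ h
      intro e he
      obtain ⟨n, rfl⟩ := hfin e he
      rw [le_W]
      exact hmax n he
    · push Not at hb
      by_cases hx : Le x W.inf
      · have hinf : W.inf ∈ U := by
          apply h
          refine ⟨?_, hx⟩
          rw [mem_iInter₂]
          intro e he
          obtain ⟨n, rfl⟩ := hfin e he
          show Le _ _
          rw [le_W]
          trivial
        obtain ⟨h1, h2, h3, h4, h5⟩ := isOpen_W.1 hU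
        obtain ⟨n, hn⟩ := h5 hinf
        obtain ⟨m, hm, hnm⟩ := hb n
        refine ⟨W.fin m, hm, fun y hy => ?_⟩
        have hy1 : Le (W.fin m) y := hy.1
        rw [le_W] at hy1
        cases y <;> simp only [R] at hy1
        · exact h3 _ _ (by omega) hn
        · exact hinf
      · obtain ⟨e0, he0⟩ := hne
        obtain ⟨n0, rfl⟩ := hfin e0 he0
        refine ⟨_, he0, fun y hy => ?_⟩
        exfalso
        apply hx
        have hy1 : Le (W.fin n0) y := hy.1
        have hy2 : Le x y := hy.2
        rw [le_W] at hy1 hy2 ⊢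
        cases y <;> simp only [R] at hy1
        · cases x <;> simp only [R] at hy2
          trivial
        · exact hy2

/-! ### The square -/

theorem le_pi {f g : Bool → W} : Le f g ↔ R (f true) (g true) ∧ R (f false) (g false) := by
  have : Le f g ↔ ∀ i, Le (f i) (g i) := by
    simp only [Le, ← specializes_iff_mem_closure]
    exact specializes_pi
  rw [this]
  constructor
  · intro h
    exact ⟨le_W.1 (h true), le_W.1 (h false)⟩
  · rintro ⟨h1, h2⟩ i
    cases i
    · exact le_W.2 h2
    · exact le_W.2 h1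

/-- A point of the square. -/
def pt (u v : W) : Bool → W := fun b => if b then u else v

theorem not_strong : ¬ IsStrongDSpace (Bool → W) := by
  rintro ⟨_, h⟩
  set U : Set (Bool → W) := ⋃ k : ℕ, {f | R (W.a k) (f true)} ∩ {f | R (W.fin (k + 1)) (f false)}
    with hU
  have hUo : IsOpen U := by
    have hT : Continuous (fun f : Bool → W => f true) := continuous_apply true
    have hF : Continuous (fun f : Bool → W => f false) := continuous_apply false
    refine isOpen_iUnion fun k => IsOpen.inter ?_ ?_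
    · exact (isOpen_up (W.a k) (by simp)).preimage hT
    · exact (isOpen_up (W.fin (k + 1)) (by simp)).preimage hF
  have := h (range fun n => pt W.d (W.fin n)) (pt W.x (W.fin 0)) U ?_ hUo ?_
  · obtain ⟨_, ⟨n, rfl⟩, hn⟩ := this
    have hmem : pt (W.a n) (W.fin n) ∈ U := by
      apply hn
      constructor
      · show Le _ _
        rw [le_pi]
        exact ⟨trivial, by simp [pt, R]⟩
      · show Le _ _
        rw [le_pi]
        exact ⟨trivial, by simp [pt, R]⟩
    rw [hU, mem_iUnion] at hmem
    obtain ⟨k, h1, h2⟩ := hmem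
    have h1' : k = n := h1
    have h2' : k + 1 ≤ n := h2
    omega
  · refine ⟨⟨_, ⟨0, rfl⟩⟩, ?_⟩
    rintro _ ⟨n, rfl⟩ _ ⟨m, rfl⟩
    refine ⟨_, ⟨max n m, rfl⟩, ?_, ?_⟩
    · rw [le_pi]
      exact ⟨trivial, le_max_left n m⟩
    · rw [le_pi]
      exact ⟨trivial, le_max_right n m⟩
  · rintro f ⟨hf1, hf2⟩
    rw [mem_iInter₂] at hf1
    have h0 : ∀ n, R W.d (f true) ∧ R (W.fin n) (f false) := fun n =>
      le_pi.1 (hf1 _ ⟨n, rfl⟩)
    have hx : R W.x (f true) := (le_pi.1 (show Le _ f from hf2)).1
    have hft : ∃ k, f true = W.a k := by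
      have h1 := (h0 0).1
      cases hft : f true with
      | a k => exact ⟨k, rfl⟩
      | d => rw [hft] at hx; exact absurd hx (by simp [R])
      | x => rw [hft] at h1; exact absurd h1 (by simp [R])
      | fin n => rw [hft] at h1; exact absurd h1 (by simp [R])
      | inf => rw [hft] at h1; exact absurd h1 (by simp [R])
    obtain ⟨k, hk⟩ := hft
    rw [hU, mem_iUnion]
    refine ⟨k, ?_, (h0 (k + 1)).2⟩
    show R (W.a k) (f true)
    rw [hk]
    exact rfl

/-- **Products of strong `d`-spaces need not be strong `d`-spaces.**  There is a strong `d`-space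
`X` whose square (the product of the family of two copies of `X`) is not a strong `d`-space. -/
theorem result : ∃ (X : Type) (_ : TopologicalSpace X), IsStrongDSpace X ∧
    ¬ IsStrongDSpace (Bool → X) :=
  ⟨W, inferInstance, isStrongDSpace_W, not_strong⟩

end Pool.Agent.Results.MP_e2e219_gt.SquareFails
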